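import Pool.Agent.helper76.UF.Spec

/-!
# Project UF (MP_37e5fa_nt), row uf:UC1
-/

set_option autoImplicit false

namespace Pool.Agent.UF

open Finset Polynomial NumberField

/-- a relation for `x` is a relation for `x^t`, `t` odd -/
private theorem UC1_conj {N : ℕ} {R : Type} [CommRing R] {x : R} (hN : 1 ≤ N) (h : Bas N x)
    (p : ℤ[X]) (hp : aeval x p = 0) (t : ℕ) (ht : Odd t) : aeval (x ^ t) p = 0 := by
  have hM : ((X : ℤ[X]) ^ N + C 1).Monic := monic_X_pow_add_C 1 (by omega)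
  have hMd : ((X : ℤ[X]) ^ N + C 1).natDegree = N := natDegree_X_pow_add_C
  have hdiv := modByMonic_add_div p ((X : ℤ[X]) ^ N + C 1)
  have hMx : aeval x ((X : ℤ[X]) ^ N + C 1) = 0 := by
    rw [map_add, map_pow, aeval_X, aeval_C, map_one, h.1]
    ring
  have hMt : aeval (x ^ t) ((X : ℤ[X]) ^ N + C 1) = 0 := by
    rw [map_add, map_pow, aeval_X, aeval_C, map_one, ← pow_mul, mul_comm t N, pow_mul, h.1,
      ht.neg_one_pow]
    ring
  have hr : aeval x (p %ₘ ((X : ℤ[X]) ^ N + C 1)) = 0 := by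
    have e := congrArg (aeval x) hdiv
    rw [map_add, map_mul, hMx, zero_mul, add_zero, hp] at e
    exact e
  have hrd : (p %ₘ ((X : ℤ[X]) ^ N + C 1)).natDegree < N := by
    have e := natDegree_modByMonic_lt p hM (by
      intro e1
      have e2 := congrArg natDegree e1
      rw [hMd, natDegree_one] at e2
      omega)
    rw [hMd] at e
    exact e
  have hr0 : p %ₘ ((X : ℤ[X]) ^ N + C 1) = 0 := by
    have e : ∑ i ∈ range N, (((p %ₘ ((X : ℤ[X]) ^ N + C 1)).coeff i : ℤ) : R) * x ^ i = 0 := by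
      rw [aeval_eq_sum_range' hrd] at hr
      rw [← hr]
      refine Finset.sum_congr rfl fun i _ => ?_
      rw [zsmul_eq_mul]
    have e2 := h.2 _ e
    ext i
    rcases lt_or_ge i N with hi | hi
    · rw [e2 i hi, coeff_zero]
    · rw [coeff_eq_zero_of_natDegree_lt (lt_of_lt_of_le hrd hi), coeff_zero]
  rw [← hdiv, hr0, zero_add, map_mul, hMt, zero_mul]

/-- the order of `x` -/
private theorem UC1_ord {N : ℕ} {R : Type} [CommRing R] {x : R} (hN : 1 ≤ N) (h : Bas N x)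
    (k : ℕ) (u : ℤ) (hk : x ^ k = (u : R)) : N ∣ k := by
  by_contra hcon
  have hr : k % N ≠ 0 := fun e => hcon (Nat.dvd_of_mod_eq_zero e)
  have hlt : k % N < N := Nat.mod_lt _ hN
  have hx : x ^ k = (((-1 : ℤ) ^ (k / N) : ℤ) : R) * x ^ (k % N) := by
    have e : k = N * (k / N) + k % N := (Nat.div_add_mod k N).symm
    conv_lhs => rw [e]
    rw [pow_add, pow_mul, h.1]
    push_cast
    rfl
  have e2 := h.2 (fun i => (if i = k % N then (-1 : ℤ) ^ (k / N) else 0) + (if i = 0 then -u else 0))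
    (by
      have e3 : ∀ i ∈ range N, ((((if i = k % N then (-1 : ℤ) ^ (k / N) else 0) +
          (if i = 0 then -u else 0) : ℤ)) : R) * x ^ i =
          (if i = k % N then (((-1 : ℤ) ^ (k / N) : ℤ) : R) * x ^ i else 0) +
          (if i = 0 then ((-u : ℤ) : R) * x ^ i else 0) := by
        intro i _
        split_ifs <;> push_cast <;> ring
      rw [Finset.sum_congr rfl e3, Finset.sum_add_distrib, Finset.sum_ite_eq', Finset.sum_ite_eq',
        if_pos (mem_range.2 hlt), if_pos (mem_range.2 (by omega)), ← hx, hk]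
      push_cast
      ring) (k % N) hlt
  simp only [if_true, if_neg hr, add_zero] at e2
  exact absurd e2 (pow_ne_zero _ (by norm_num))

theorem UC1 : UC1_stmt := by
  intro m R _ _ x b hm hB hb i e hi he hne hid
  have hN : 1 ≤ 2 ^ m := Nat.one_le_two_pow
  have h16 : 16 ∣ 2 ^ m := by
    have e1 : (16 : ℕ) = 2 ^ 4 := by norm_num
    rw [e1]
    exact pow_dvd_pow 2 hm
  obtain ⟨n, hn⟩ := h16
  have hxN : x ^ (2 ^ m) = -1 := hB.1
  have hx2N : x ^ (2 * 2 ^ m) = 1 := by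
    rw [mul_comm, pow_mul, hxN]
    norm_num
  have h2 : (2 : R) ≠ 0 := by
    intro h
    have e1 := hB.2 (fun j => if j = 0 then 2 else 0) (by
      refine Finset.sum_eq_zero fun j _ => ?_
      split_ifs
      · push_cast
        rw [h, zero_mul]
      · push_cast
        rw [zero_mul]) 0 (by omega)
    simp at e1
  have hbx : b x = x ^ (2 * 2 ^ m - 1) := by
    have e1 : b x * x * x ^ (2 * 2 ^ m - 1) = x ^ (2 * 2 ^ m - 1) := by rw [hb.1, one_mul]
    have e2 : x * x ^ (2 * 2 ^ m - 1) = 1 := by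
      rw [← pow_succ', Nat.sub_add_cancel (by omega), hx2N]
    rw [mul_assoc, e2, mul_one] at e1
    exact e1
  have hxb : ∀ k : ℕ, x ^ k * b x ^ k = 1 := by
    intro k
    rw [← mul_pow, mul_comm, hb.1, one_pow]
  -- the conjugate relation
  have hconj := UC1_conj hN hB
    (X ^ (2 * i) + X ^ ((2 * 2 ^ m - 1) * (2 * i)) + (X ^ e + X ^ ((2 * 2 ^ m - 1) * e)) -
      (X ^ 2 + X ^ ((2 * 2 ^ m - 1) * 2) + (X ^ (2 * e) + X ^ ((2 * 2 ^ m - 1) * (2 * e)))))
    (by
      simp only [map_add, map_sub, map_pow, aeval_X, pow_mul x (2 * 2 ^ m - 1), ← hbx]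
      rw [hid, sub_self]) (1 + 8 * n) ⟨4 * n, by ring⟩
  have ht : ∀ k : ℕ, (x ^ (1 + 8 * n)) ^ (2 * k) = (-1) ^ k * x ^ (2 * k) := by
    intro k
    have e1 : (1 + 8 * n) * (2 * k) = 2 ^ m * k + 2 * k := by
      rw [hn]
      ring
    rw [← pow_mul, e1, pow_add, pow_mul, hxN]
  obtain ⟨f, hf⟩ := he
  have hf' : e = 2 * f := by omega
  have hodd : Odd (2 * 2 ^ m - 1) := ⟨2 ^ m - 1, by omega⟩
  have hi1 : (-1 : R) ^ i = -1 := hi.neg_one_pow
  have hi2 : (-1 : R) ^ ((2 * 2 ^ m - 1) * i) = -1 := (hodd.mul hi).neg_one_pow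
  have hi3 : (-1 : R) ^ (2 * 2 ^ m - 1) = -1 := hodd.neg_one_pow
  have k1 : (x ^ (1 + 8 * n)) ^ (2 * i) = - x ^ (2 * i) := by
    rw [ht i, hi1]
    ring
  have k2 : (x ^ (1 + 8 * n)) ^ ((2 * 2 ^ m - 1) * (2 * i)) = - b x ^ (2 * i) := by
    have e1 : (2 * 2 ^ m - 1) * (2 * i) = 2 * ((2 * 2 ^ m - 1) * i) := by ring
    rw [e1, ht, hi2, ← e1, hbx, ← pow_mul]
    ring
  have k3 : (x ^ (1 + 8 * n)) ^ e = (-1) ^ f * x ^ e := by
    rw [hf', ht f]
  have hfo : (-1 : R) ^ ((2 * 2 ^ m - 1) * f) = (-1) ^ f := by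
    rw [pow_mul, hodd.neg_one_pow]
  have k4 : (x ^ (1 + 8 * n)) ^ ((2 * 2 ^ m - 1) * e) = (-1) ^ f * b x ^ e := by
    have e1 : (2 * 2 ^ m - 1) * e = 2 * ((2 * 2 ^ m - 1) * f) := by
      rw [hf']
      ring
    rw [e1, ht, hfo, ← e1, hbx, ← pow_mul]
  have k5 : (x ^ (1 + 8 * n)) ^ 2 = - x ^ 2 := by
    have e1 := ht 1
    rw [mul_one, pow_one] at e1
    rw [e1]
    ring
  have k6 : (x ^ (1 + 8 * n)) ^ ((2 * 2 ^ m - 1) * 2) = - b x ^ 2 := by
    have e1 : (2 * 2 ^ m - 1) * 2 = 2 * (2 * 2 ^ m - 1) := by ring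
    rw [e1, ht, hi3, ← e1, hbx, ← pow_mul]
    ring
  have k7 : (x ^ (1 + 8 * n)) ^ (2 * e) = x ^ (2 * e) := by
    rw [ht e, hf', pow_mul, neg_one_sq, one_pow, one_mul]
  have k8 : (x ^ (1 + 8 * n)) ^ ((2 * 2 ^ m - 1) * (2 * e)) = b x ^ (2 * e) := by
    have e1 : (2 * 2 ^ m - 1) * (2 * e) = 2 * ((2 * 2 ^ m - 1) * e) := by ring
    have e2 : (-1 : R) ^ ((2 * 2 ^ m - 1) * e) = 1 := by
      rw [pow_mul, hodd.neg_one_pow, hf', pow_mul, neg_one_sq, one_pow]
    rw [e1, ht, e2, ← e1, hbx, ← pow_mul, one_mul]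
  simp only [map_add, map_sub, map_pow, aeval_X] at hconj
  rw [k1, k2, k3, k4, k5, k6, k7, k8] at hconj
  rcases Nat.even_or_odd f with hfe | hfo'
  · -- `4 ∣ e`
    rw [hfe.neg_one_pow] at hconj
    have e1 : (2 : R) * ((x ^ e + b x ^ e) - (x ^ (2 * e) + b x ^ (2 * e))) = 0 := by
      linear_combination hconj + hid
    have e2 := (mul_eq_zero.1 e1).resolve_left h2
    have e3 : (x ^ (3 * e) - 1) * (x ^ e - 1) = 0 := by
      have e4 := hxb e
      have e5 := hxb (2 * e)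
      have e6 : x ^ (2 * e) * ((x ^ e + b x ^ e) - (x ^ (2 * e) + b x ^ (2 * e))) = 0 := by
        rw [e2, mul_zero]
      have e7 : x ^ (2 * e) * b x ^ e = x ^ e := by
        have e8 : x ^ (2 * e) = x ^ e * x ^ e := by
          rw [← pow_add]
          congr 1
          ring
        rw [e8, mul_assoc, e4, mul_one]
      have e9 : x ^ (3 * e) = x ^ (2 * e) * x ^ e := by
        rw [← pow_add]
        congr 1
        ring
      have e10 : x ^ (2 * e) = x ^ e * x ^ e := by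
        rw [← pow_add]
        congr 1
        ring
      have e11 : x ^ (2 * e) * ((x ^ e + b x ^ e) - (x ^ (2 * e) + b x ^ (2 * e))) =
          x ^ (2 * e) * x ^ e + x ^ (2 * e) * b x ^ e - x ^ (2 * e) * x ^ (2 * e) -
            x ^ (2 * e) * b x ^ (2 * e) := by ring
      rw [e11, e7, e5] at e6
      rw [e9]
      linear_combination (-1 : R) * e6 - x ^ (2 * e) * e10
    rcases mul_eq_zero.1 e3 with h | h
    · have h1 : x ^ (3 * e) = ((1 : ℤ) : R) := by
        push_cast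
        exact sub_eq_zero.1 h
      have h3 := UC1_ord hN hB _ _ h1
      have h4 : Nat.Coprime (2 ^ m) 3 := Nat.Coprime.pow_left m (by norm_num)
      have h5 : 2 ^ m ∣ e := h4.dvd_of_dvd_mul_left h3
      exact hne (h5.mul_left 2)
    · have h1 : x ^ e = ((1 : ℤ) : R) := by
        push_cast
        exact sub_eq_zero.1 h
      have h3 := UC1_ord hN hB _ _ h1
      exact hne (h3.mul_left 2)
  · rw [hfo'.neg_one_pow] at hconj
    have e1 : (2 : R) * (x ^ (2 * e) + b x ^ (2 * e)) = 0 := by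
      linear_combination (-1 : R) * hconj - hid
    have e2 := (mul_eq_zero.1 e1).resolve_left h2
    have e3 : x ^ (4 * e) = ((-1 : ℤ) : R) := by
      have e4 := hxb (2 * e)
      have e5 : x ^ (4 * e) = x ^ (2 * e) * x ^ (2 * e) := by
        rw [← pow_add]
        congr 1
        ring
      rw [e5]
      push_cast
      linear_combination x ^ (2 * e) * e2 - e4
    have h3 := UC1_ord hN hB _ _ e3
    obtain ⟨g, hg⟩ := hfo'
    rw [hn] at h3
    obtain ⟨d, hd⟩ := h3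
    have h4 : 8 * (2 * g + 1) = 16 * (n * d) := by
      rw [← mul_assoc, ← hd, hf', hg]
      ring
    omega

end Pool.Agent.UF
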